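import Pool.Agent.K7.H12.FI.Conc

/-!
# Project FI, jobs LB0, LB1, LB2: lower bounds
-/

set_option autoImplicit false

namespace Pool.Agent.K7.H31.FI

open Pool.Agent.K7.H15.Irr Pool.Agent.K7.H12.FI

theorem Ok_mono {X : Type} {F : OrientedGraph X} {P : Par X} {h : IsHom F F P.ρ} {A A' a B : ℕ}
    {x : X → ℕ} (ok : Ok F P h A a B x) (hA : A' ≤ A) : Ok F P h A' a B x :=
  { ok with
    ha := hA.trans ok.ha
    hb := (Nat.mul_le_mul_right _ hA).trans ok.hb
    hB := (Nat.mul_le_mul_right _ (Nat.mul_le_mul_right _ hA)).trans ok.hB }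

/-- bulk vertices -/
def IsBulk {X : Type} {P : Par X} (q : Vt P) : Prop := ∃ g i j, q = bk g i j

theorem sizes {X : Type} {F : OrientedGraph X} {P : Par X} {h : IsHom F F P.ρ} {A a B : ℕ}
    {x : X → ℕ} (ok : Ok F P h A a B x) (hA : 1 ≤ A) (hb : P.b * B ≤ P.m)
    (hn : a * P.m ≤ Nat.card (Vt P)) : A ≤ P.m ∧ 1 ≤ a ∧ A * (a * B) ≤ Nat.card (Vt P) ∧
      A ≤ Nat.card (Vt P) := by
  have h1 := ok.ha
  have h2 := ok.hb
  have h3 := ok.hB
  have ha : 1 ≤ a := hA.trans h1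
  have hb1 : A ≤ P.b := by nlinarith [Nat.one_le_pow 2 a ha]
  have hb2 : 1 ≤ P.b := hA.trans hb1
  have hB1 : A ≤ B := by
    calc A = A * 1 * 1 := by ring
      _ ≤ A * a * P.b := by gcongr
      _ ≤ B := h3
  have hm : A ≤ P.m := by
    calc A ≤ B := hB1
      _ = 1 * B := (one_mul _).symm
      _ ≤ P.b * B := by gcongr
      _ ≤ P.m := hb
  refine ⟨hm, ha, ?_, ?_⟩
  · calc A * (a * B) ≤ P.b * (a * B) := by gcongr
      _ = a * (P.b * B) := by ring
      _ ≤ a * P.m := by gcongr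
      _ ≤ _ := hn
  · calc A ≤ P.m := hm
      _ = 1 * P.m := (one_mul _).symm
      _ ≤ a * P.m := by gcongr
      _ ≤ _ := hn

/-- the arithmetic -/
theorem arith {k q M N : ℕ} {n c : ℝ} (hk : 1 ≤ k) (hq : q ≤ k) (hn : 0 < n) (hc : 0 < c)
    (hc1 : c ≤ 1) (hM : c * n ≤ M) (hN : M ^ (k - q) ≤ N) :
    (c / k) ^ k * ((k : ℝ) / n) ^ q ≤ (N : ℝ) / n ^ k := by
  have hk0 : (0 : ℝ) < k := by exact_mod_cast hk
  have hk1 : (1 : ℝ) ≤ k := by exact_mod_cast hk
  have h1 : (c * n) ^ (k - q) ≤ N := by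
    calc (c * n) ^ (k - q) ≤ (M : ℝ) ^ (k - q) := by gcongr
      _ ≤ N := by exact_mod_cast hN
  have h2 : (c * n) ^ (k - q) / n ^ k ≤ N / n ^ k := by gcongr
  refine le_trans ?_ h2
  have e : n ^ k = n ^ (k - q) * n ^ q := by rw [← pow_add, Nat.sub_add_cancel hq]
  rw [div_pow, div_pow, mul_pow, e, mul_div_mul_comm]
  have e2 : n ^ (k - q) ≠ 0 := by positivity
  have h3 : c ^ k ≤ c ^ (k - q) := pow_le_pow_of_le_one hc.le hc1 (Nat.sub_le _ _)
  have h4 : (k : ℝ) ^ q ≤ (k : ℝ) ^ k := pow_le_pow_right₀ hk1 hq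
  have e3 : c ^ (k - q) * n ^ (k - q) / (n ^ (k - q) * n ^ q) = c ^ (k - q) / n ^ q := by
    field_simp
  have h5 : c ^ k / (k : ℝ) ^ k * ((k : ℝ) ^ q / n ^ q) ≤ c ^ (k - q) / n ^ q := by
    rw [div_mul_div_comm, div_le_div_iff₀ (by positivity) (by positivity)]
    calc c ^ k * (k : ℝ) ^ q * n ^ q ≤ c ^ (k - q) * (k : ℝ) ^ k * n ^ q := by gcongr
      _ = c ^ (k - q) * ((k : ℝ) ^ k * n ^ q) := by ring
  calc _ = c ^ k / (k : ℝ) ^ k * ((k : ℝ) ^ q / n ^ q) := by ring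
    _ ≤ c ^ (k - q) / n ^ q := h5
    _ = _ := by rw [← e3]; ring

/-- the bulk vertices of one class in the columns `k s + t` -/
def colmap {X : Type} {P : Par X} (k t : ℕ) (ht : t < k) (g : Cls P) :
    Fin (P.r g.1) × Fin (P.m / k) → Vt P := fun u =>
  bk g u.1 ⟨k * u.2 + t, by
    have h1 := u.2.2
    have h2 : k * (P.m / k) ≤ P.m := Nat.mul_div_le P.m k
    have h3 : k * ((u.2 : ℕ) + 1) ≤ k * (P.m / k) := Nat.mul_le_mul_left _ h1
    rw [Nat.mul_add, mul_one] at h3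
    omega⟩

theorem colmap_inj {X : Type} {P : Par X} (k t : ℕ) (ht : t < k) (g : Cls P) :
    Function.Injective (colmap k t ht g) := by
  rintro ⟨i, s⟩ ⟨i', s'⟩ h
  have h1 := congrArg lab h
  simp only [colmap, bk, lab, Lab.bulk.injEq] at h1
  obtain ⟨h1, h2⟩ := h1
  have hk : 0 < k := by omega
  have h3 : (s : ℕ) = s' := by
    have := Nat.add_right_cancel h2
    exact Nat.eq_of_mul_eq_mul_left hk this
  rw [Fin.ext h1, Fin.ext h3]

theorem colmap_disj {X : Type} {P : Par X} (k t t' : ℕ) (ht : t < k) (ht' : t' < k) (h : t ≠ t')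
    (g g' : Cls P) : Disjoint (Set.range (colmap k t ht g)) (Set.range (colmap k t' ht' g')) := by
  rw [Set.disjoint_left]
  rintro _ ⟨⟨i, s⟩, rfl⟩ ⟨⟨i', s'⟩, h1⟩
  have h1 := congrArg lab h1
  simp only [colmap, bk, lab, Lab.bulk.injEq] at h1
  have h2 := congrArg (· % k) h1.2
  simp only [Nat.mul_add_mod, Nat.mod_eq_of_lt ht, Nat.mod_eq_of_lt ht'] at h2
  exact h h2.symm

theorem core (hE : StEmb) (hS : StSize) (X : Type) [Finite X] (F : OrientedGraph X)
    (hF : F.WeaklyConnected) (h3 : 3 ≤ Nat.card X) :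
    ∃ c : ℝ, 0 < c ∧ ∃ A : ℕ, ∀ (P : Par X) (h : IsHom F F P.ρ) (a B : ℕ) (x : X → ℕ),
      Ok F P h A a B x → ∀ (G : OrientedGraph (Vt P)) (E : (X → Vt P) → Prop) (Y : Finset X)
      (η : X → Vt P) (Bad : Set (Vt P)),
      Set.InjOn η Y → (Bad.ncard : ℝ) ≤ c * Nat.card (Vt P) → (∀ y ∈ Y, η y ∈ Bad) →
      (∀ x y, F.Arc x y → x ∈ Y → y ∈ Y → G.Arc (η x) (η y)) →
      (∀ x y, F.Arc x y → x ∈ Y → ∀ q, IsBulk q → cl q = P.ρ y → q ∉ Bad → G.Arc (η x) q) →
      (∀ x y, F.Arc x y → y ∈ Y → ∀ q, IsBulk q → cl q = P.ρ x → q ∉ Bad → G.Arc q (η y)) →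
      (∀ x y, F.Arc x y → ∀ q q', IsBulk q → IsBulk q' → cl q = P.ρ x → cl q' = P.ρ y →
        q ∉ Bad → q' ∉ Bad → G.Arc q q') →
      (∀ φ : X → Vt P, (∀ y ∈ Y, φ y = η y) → (∀ x, x ∉ Y → φ x ∉ Bad) → E φ) →
      c * err X (Vt P) Y.card ≤ mu F G E := by
  classical
  have := Fintype.ofFinite X
  obtain ⟨C, hC, A0, hs⟩ := hS X F hF h3
  set k := Nat.card X with hk
  have hk0 : 0 < k := by omega
  have hkR : (0 : ℝ) < k := by exact_mod_cast hk0
  have hkR1 : (1 : ℝ) ≤ k := by exact_mod_cast hk0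
  set c2 : ℝ := min 1 (1 / (4 * k * C)) with hc2
  have hc2pos : 0 < c2 := by rw [hc2]; exact lt_min one_pos (by positivity)
  have hc2le : c2 ≤ 1 := min_le_left _ _
  have hc2' : c2 * (4 * k * C) ≤ 1 := by
    have : c2 ≤ 1 / (4 * k * C) := min_le_right _ _
    rwa [le_div_iff₀ (by positivity)] at this
  have hcle : (c2 / k) ^ k ≤ c2 := by
    have h1 : c2 / k ≤ c2 := div_le_self hc2pos.le hkR1
    have h2 : 0 ≤ c2 / k := by positivity
    calc (c2 / k) ^ k ≤ (c2 / k) ^ 1 := pow_le_pow_of_le_one h2 (h1.trans hc2le) hk0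
      _ = c2 / k := pow_one _
      _ ≤ c2 := h1
  refine ⟨(c2 / k) ^ k, by positivity, max A0 (2 * k), ?_⟩
  intro P h a B x ok G E Y η Bad hη hBad hYB hYY hYQ hQY hQQ hEφ
  obtain ⟨hm0, hn0, hbB, -, hn1, hn2, -⟩ := hs P h a B x (Ok_mono ok (le_max_left _ _))
  have hn2' : a * P.m ≤ Nat.card (Vt P) := by exact_mod_cast hn2
  obtain ⟨hm, ha, -, -⟩ := sizes ok (by omega) hbB hn2'
  have hm2 : 2 * k ≤ P.m := (le_max_right _ _).trans hm
  set n : ℕ := Nat.card (Vt P) with hn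
  have hnR : (0 : ℝ) < n := by exact_mod_cast hn0
  have : Finite (Vt P) := Nat.finite_of_card_ne_zero (by omega)
  -- an enumeration of `X`
  let idx : X ≃ Fin k := Finite.equivFin X
  let gx : X → Cls P := fun x => ⟨P.ρ x, x, rfl⟩
  let Q : X → Set (Vt P) := fun x => Set.range (colmap k (idx x) (idx x).2 (gx x)) \ Bad
  have hQB : ∀ x q, q ∈ Q x → IsBulk q ∧ cl q = P.ρ x ∧ q ∉ Bad := by
    rintro x q ⟨⟨u, rfl⟩, hq⟩
    exact ⟨⟨_, _, _, rfl⟩, rfl, hq⟩
  have hQc : ∀ x, ⌈c2 * (n : ℝ)⌉₊ ≤ (Q x).ncard := by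
    intro x
    rw [Nat.ceil_le]
    have h1 : (Set.range (colmap k (idx x) (idx x).2 (gx x))).ncard - Bad.ncard ≤ (Q x).ncard :=
      Set.le_ncard_sdiff _ _ (Set.toFinite _)
    have h2 : (Set.range (colmap k (idx x) (idx x).2 (gx x))).ncard =
        P.r (gx x).1 * (P.m / k) := by
      rw [← Set.image_univ, Set.ncard_image_of_injective _ (colmap_inj _ _ _ _), Set.ncard_univ,
        Nat.card_prod, Nat.card_fin, Nat.card_fin]
    rw [h2] at h1
    have h4 : a ≤ P.r (gx x).1 := by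
      rw [ok.hr (gx x)]
      exact Nat.le_mul_of_pos_left _ (ok.hx (gx x)).1
    have h5 : (P.m : ℝ) ≤ 2 * k * ((P.m / k : ℕ) : ℝ) := by
      have h6 := Nat.div_add_mod P.m k
      have h7 := Nat.mod_lt P.m hk0
      have h8 : 2 ≤ P.m / k := (Nat.le_div_iff_mul_le hk0).2 hm2
      have h9 : P.m ≤ 2 * k * (P.m / k) := by nlinarith
      exact_mod_cast h9
    have h6 : (n : ℝ) ≤ 2 * k * C * ((P.r (gx x).1 * (P.m / k) : ℕ) : ℝ) := by
      calc (n : ℝ) ≤ C * (a * P.m) := hn1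
        _ ≤ C * (a * (2 * k * ((P.m / k : ℕ) : ℝ))) := by gcongr
        _ = 2 * k * C * (a * ((P.m / k : ℕ) : ℝ)) := by ring
        _ ≤ 2 * k * C * ((P.r (gx x).1 : ℝ) * ((P.m / k : ℕ) : ℝ)) := by
            have : (a : ℝ) ≤ P.r (gx x).1 := by exact_mod_cast h4
            gcongr
        _ = _ := by push_cast; ring
    have h7 : 2 * c2 * (n : ℝ) ≤ ((P.r (gx x).1 * (P.m / k) : ℕ) : ℝ) := by
      set w : ℝ := ((P.r (gx x).1 * (P.m / k) : ℕ) : ℝ) with hw
      have hw0 : 0 ≤ w := Nat.cast_nonneg _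
      calc 2 * c2 * (n : ℝ) ≤ 2 * c2 * (2 * k * C * w) := by gcongr
        _ = (c2 * (4 * k * C)) * w := by ring
        _ ≤ 1 * w := by gcongr
        _ = w := one_mul w
    have h8 : ((P.r (gx x).1 * (P.m / k) : ℕ) : ℝ) ≤ (Q x).ncard + Bad.ncard := by
      have : P.r (gx x).1 * (P.m / k) ≤ (Q x).ncard + Bad.ncard := by omega
      exact_mod_cast this
    have h9 : (Bad.ncard : ℝ) ≤ c2 * n := hBad.trans (by gcongr)
    linarith
  have hemb := hE X (Vt P) F G E Y η Q ⌈c2 * (n : ℝ)⌉₊ hη (fun x _ => hQc x)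
    (fun x y _ _ hxy => by
      refine Set.disjoint_of_subset Set.sdiff_subset Set.sdiff_subset (colmap_disj _ _ _ _ _ ?_ _ _)
      intro he
      exact hxy (idx.injective (Fin.ext he)))
    (fun x y _ hy hq => (hQB x _ hq).2.2 (hYB y hy))
    hYY
    (fun x y hxy hx _ q hq => by
      obtain ⟨h1, h2, h4⟩ := hQB y q hq
      exact hYQ x y hxy hx q h1 h2 h4)
    (fun x y hxy _ hy q hq => by
      obtain ⟨h1, h2, h4⟩ := hQB x q hq
      exact hQY x y hxy hy q h1 h2 h4)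
    (fun x y hxy _ _ q hq q' hq' => by
      obtain ⟨h1, h2, h4⟩ := hQB x q hq
      obtain ⟨h5, h6, h7⟩ := hQB y q' hq'
      exact hQQ x y hxy q q' h1 h5 h2 h6 h4 h7)
    (fun φ h1 h2 => hEφ φ h1 fun x hx => (hQB x _ (h2 x hx)).2.2)
  have hYk : Y.card ≤ k := by
    rw [hk, Nat.card_eq_fintype_card]
    exact Finset.card_le_univ Y
  unfold mu err
  exact arith hk0 hYk hnR hc2pos hc2le (Nat.le_ceil _) hemb

theorem arc_of_adj {X V : Type} {H : OrientedGraph X} {p : V → X} {G : OrientedGraph V}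
    (ho : Over H p G) {a b : V} (h : H.Arc (p a) (p b)) (h' : G.underlying.Adj a b) :
    G.Arc a b := by
  rcases h' with h' | h'
  · exact h'
  · exact absurd (ho _ _ h') (H.asymm _ _ h)

theorem upd_over {X V : Type} (H : OrientedGraph X) (p : V → X) (G : OrientedGraph V) (s : V)
    (P : Set V) : Over H p (upd H p G s P) := fun _ _ h => h.1

theorem upd_adj {X V : Type} {H : OrientedGraph X} {p : V → X} {G : OrientedGraph V}
    (ho : Over H p G) {s : V} {P : Set V} {a b : V} (h : H.underlying.Adj (p a) (p b))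
    (h' : (a ≠ s ∧ b ≠ s ∧ G.underlying.Adj a b) ∨ (a = s ∧ b ∈ P) ∨ (b = s ∧ a ∈ P)) :
    (upd H p G s P).underlying.Adj a b := by
  rcases h with h | h
  · left
    refine ⟨h, ?_⟩
    rcases h' with ⟨h1, h2, h3⟩ | h1 | h1
    · exact .inl ⟨h1, h2, arc_of_adj ho h h3⟩
    · exact .inr (.inl h1)
    · exact .inr (.inr h1)
  · right
    refine ⟨h, ?_⟩
    rcases h' with ⟨h1, h2, h3⟩ | h1 | h1
    · exact .inl ⟨h2, h1, arc_of_adj ho h h3.symm⟩
    · exact .inr (.inr h1)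
    · exact .inr (.inl h1)

theorem img_arc {X : Type} {F : OrientedGraph X} {ρ : X → X} (h : IsHom F F ρ) {x y : X}
    (hxy : F.Arc x y) : (img F ρ h).Arc (ρ x) (ρ y) := ⟨x, y, hxy, rfl, rfl⟩

theorem img_adj {X : Type} {F : OrientedGraph X} {ρ : X → X} (h : IsHom F F ρ) {x y : X}
    (hxy : F.underlying.Adj x y) : (img F ρ h).underlying.Adj (ρ x) (ρ y) :=
  hxy.imp (img_arc h) (img_arc h)

theorem adj_img {X : Type} {F : OrientedGraph X} {ρ : X → X} (h : IsHom F F ρ) {g g' : X}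
    (hg : (img F ρ h).underlying.Adj g g') : ∃ x y, F.underlying.Adj x y ∧ ρ x = g ∧ ρ y = g' := by
  rcases hg with ⟨x, y, h1, h2, h3⟩ | ⟨x, y, h1, h2, h3⟩
  · exact ⟨x, y, .inl h1, h2, h3⟩
  · exact ⟨y, x, .inr h1, h3, h2⟩

theorem gph_over {X : Type} {F : OrientedGraph X} {P : Par X} (h : IsHom F F P.ρ) :
    Over (img F P.ρ h) cl (gph F P h) := fun _ _ h => h.1

theorem bulk_adj {X : Type} {F : OrientedGraph X} {P : Par X} (h : IsHom F F P.ρ) {q q' : Vt P}
    (hq : IsBulk q) (hq' : IsBulk q') (hc : (img F P.ρ h).underlying.Adj (cl q) (cl q')) :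
    (gph F P h).underlying.Adj q q' := by
  obtain ⟨g, i, j, rfl⟩ := hq
  obtain ⟨g', i', j', rfl⟩ := hq'
  rcases hc with hc | hc
  · exact .inl ⟨hc, fun h => h⟩
  · exact .inr ⟨hc, fun h => h⟩

theorem core2 (hE : StEmb) (hS : StSize) (X : Type) [Finite X] (F : OrientedGraph X)
    (hF : F.WeaklyConnected) (h3 : 3 ≤ Nat.card X) :
    ∃ c : ℝ, 0 < c ∧ ∃ A : ℕ, ∀ (P : Par X) (h : IsHom F F P.ρ) (a B : ℕ) (x : X → ℕ),
      Ok F P h A a B x → ∀ (G : OrientedGraph (Vt P)) (E : (X → Vt P) → Prop) (Y : Finset X)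
      (η : X → Vt P) (Bad : Set (Vt P)), Over (img F P.ρ h) cl G → (∀ y ∈ Y, cl (η y) = P.ρ y) →
      Set.InjOn η Y → (Bad.ncard : ℝ) ≤ c * Nat.card (Vt P) → (∀ y ∈ Y, η y ∈ Bad) →
      (∀ x y, F.underlying.Adj x y → x ∈ Y → y ∈ Y → G.underlying.Adj (η x) (η y)) →
      (∀ x ∈ Y, ∀ q, IsBulk q → (img F P.ρ h).underlying.Adj (cl (η x)) (cl q) → q ∉ Bad →
        G.underlying.Adj (η x) q) →
      (∀ q q', IsBulk q → IsBulk q' → (img F P.ρ h).underlying.Adj (cl q) (cl q') →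
        q ∉ Bad → q' ∉ Bad → G.underlying.Adj q q') →
      (∀ φ : X → Vt P, (∀ y ∈ Y, φ y = η y) → (∀ x, x ∉ Y → φ x ∉ Bad) → E φ) →
      c * err X (Vt P) Y.card ≤ mu F G E := by
  obtain ⟨c, hc, A, hA⟩ := core hE hS X F hF h3
  refine ⟨c, hc, A, ?_⟩
  intro P h a B x ok G E Y η Bad ho hcl hη hBad hYB hYY hYQ hQQ hEφ
  refine hA P h a B x ok G E Y η Bad hη hBad hYB ?_ ?_ ?_ ?_ hEφ
  · intro x y hxy hx hy
    refine arc_of_adj ho ?_ (hYY x y (.inl hxy) hx hy)
    rw [hcl x hx, hcl y hy]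
    exact img_arc h hxy
  · intro x y hxy hx q hq hqy hqB
    have h1 : (img F P.ρ h).Arc (cl (η x)) (cl q) := by
      rw [hcl x hx, hqy]
      exact img_arc h hxy
    exact arc_of_adj ho h1 (hYQ x hx q hq (.inl h1) hqB)
  · intro x y hxy hy q hq hqx hqB
    have h1 : (img F P.ρ h).Arc (cl q) (cl (η y)) := by
      rw [hcl y hy, hqx]
      exact img_arc h hxy
    exact arc_of_adj ho h1 (hYQ y hy q hq (.inr h1) hqB).symm
  · intro x y hxy q q' hq hq' hqx hqy hqB hqB'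
    have h1 : (img F P.ρ h).Arc (cl q) (cl q') := by
      rw [hqx, hqy]
      exact img_arc h hxy
    exact arc_of_adj ho h1 (hQQ q q' hq hq' (.inl h1) hqB hqB')

theorem small (hS : StSize) (X : Type) [Finite X] (F : OrientedGraph X)
    (hF : F.WeaklyConnected) (h3 : 3 ≤ Nat.card X) (ε : ℝ) (hε : 0 < ε) :
    ∃ A : ℕ, ∀ (P : Par X) (h : IsHom F F P.ρ) (a B : ℕ) (x : X → ℕ), Ok F P h A a B x →
      Finite (Vt P) ∧ 5 ≤ ε * Nat.card (Vt P) ∧ ∀ v : Vt P,
      ({u | (img F P.ρ h).underlying.Adj (cl v) (cl u) ∧ (∃ g i j, u = bk g i j) ∧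
      u ∉ nb (gph F P h) v}.ncard : ℝ) ≤ ε * Nat.card (Vt P) := by
  obtain ⟨C, hC, A0, hs⟩ := hS X F hF h3
  refine ⟨max A0 (max 1 (max ⌈5 / ε⌉₊ ⌈C / ε⌉₊)), ?_⟩
  intro P h a B x ok
  obtain ⟨hm0, hn0, hbB, -, hn1, hn2, -, -, -, -, -, hmis⟩ :=
    hs P h a B x (Ok_mono ok (le_max_left _ _))
  have hn2' : a * P.m ≤ Nat.card (Vt P) := by exact_mod_cast hn2
  have ok1 := Ok_mono ok (le_max_right _ _)
  obtain ⟨hm, ha, h4, h5⟩ := sizes ok1 (le_max_left _ _) hbB hn2'
  have e1 : 5 / ε ≤ ((max 1 (max ⌈5 / ε⌉₊ ⌈C / ε⌉₊) : ℕ) : ℝ) := by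
    refine (Nat.le_ceil _).trans ?_
    exact_mod_cast (le_max_left _ _).trans (le_max_right _ _)
  have e2 : C / ε ≤ ((max 1 (max ⌈5 / ε⌉₊ ⌈C / ε⌉₊) : ℕ) : ℝ) := by
    refine (Nat.le_ceil _).trans ?_
    exact_mod_cast (le_max_right _ _).trans (le_max_right _ _)
  generalize max 1 (max ⌈5 / ε⌉₊ ⌈C / ε⌉₊) = A at e1 e2 h4 h5
  have h4' : (A : ℝ) * (a * B) ≤ Nat.card (Vt P) := by exact_mod_cast h4
  have h5' : (A : ℝ) ≤ Nat.card (Vt P) := by exact_mod_cast h5
  rw [div_le_iff₀ hε] at e1 e2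
  refine ⟨Nat.finite_of_card_ne_zero (by omega), ?_, fun v => (hmis v).trans ?_⟩
  · nlinarith
  · calc C * ((a : ℝ) * B) ≤ (A * ε) * ((a : ℝ) * B) := by gcongr
      _ = ε * (A * (a * B)) := by ring
      _ ≤ ε * Nat.card (Vt P) := by gcongr

theorem lb0 (hE : StEmb) (hS : StSize) : StLB0 := by
  classical
  intro X _ F hF h3
  obtain ⟨c, hc, A, hA⟩ := core2 hE hS X F hF h3
  obtain ⟨A', hA'⟩ := small hS X F hF h3 (c / 2) (by positivity)
  refine ⟨c, hc, max A A', ?_⟩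
  intro P h a B x ok v
  obtain ⟨hfin, h5, hmis⟩ := hA' P h a B x (Ok_mono ok (le_max_right _ _))
  obtain ⟨y1, hy1⟩ : ∃ y, P.ρ y = cl v := v.1.2
  have key := hA P h a B x (Ok_mono ok (le_max_left _ _)) (gph F P h)
    (fun φ => v ∈ Set.range φ) {y1} (fun _ => v)
    ({v} ∪ {u | (img F P.ρ h).underlying.Adj (cl v) (cl u) ∧ (∃ g i j, u = bk g i j) ∧
      u ∉ nb (gph F P h) v}) (gph_over h)
    (fun y hy => by rw [Finset.mem_singleton.1 hy, hy1])
    (by simp) ?_ (fun y _ => .inl rfl) ?_ ?_ ?_ ?_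
  · simpa [D] using key
  · have h6 := Set.ncard_union_le {v} {u | (img F P.ρ h).underlying.Adj (cl v) (cl u) ∧
      (∃ g i j, u = bk g i j) ∧ u ∉ nb (gph F P h) v}
    rw [Set.ncard_singleton] at h6
    have h7 := hmis v
    have h8 : (({v} ∪ {u | (img F P.ρ h).underlying.Adj (cl v) (cl u) ∧
      (∃ g i j, u = bk g i j) ∧ u ∉ nb (gph F P h) v} : Set (Vt P)).ncard : ℝ) ≤
      1 + ({u | (img F P.ρ h).underlying.Adj (cl v) (cl u) ∧
      (∃ g i j, u = bk g i j) ∧ u ∉ nb (gph F P h) v} : Set (Vt P)).ncard := by exact_mod_cast h6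
    linarith
  · intro x y hxy hx hy
    rw [Finset.mem_singleton.1 hx, Finset.mem_singleton.1 hy] at hxy
    exact absurd hxy (SimpleGraph.irrefl _)
  · intro x _ q hq hadj hqB
    by_contra h6
    exact hqB (.inr ⟨hadj, hq, h6⟩)
  · intro q q' hq hq' hadj _ _
    exact bulk_adj h hq hq' hadj
  · intro φ h6 _
    exact ⟨y1, h6 y1 (Finset.mem_singleton_self _)⟩

theorem lb1 (hE : StEmb) (hS : StSize) : StLB1 := by
  classical
  intro X _ F hF h3
  obtain ⟨c, hc, A, hA⟩ := core2 hE hS X F hF h3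
  obtain ⟨A', hA'⟩ := small hS X F hF h3 (c / 3) (by positivity)
  refine ⟨c / 3, by positivity, max A A', ?_⟩
  intro P h a B x ok v v' u S hvv hcl hadj huS hcount
  obtain ⟨hfin, h5, hmis⟩ := hA' P h a B x (Ok_mono ok (le_max_right _ _))
  obtain ⟨y1, y2, hy, hy1, hy2⟩ := adj_img h hadj
  have hne : y1 ≠ y2 := hy.ne
  have hcvu : cl v ≠ cl u := hadj.ne
  have hvu : v ≠ u := fun e => hcvu (by rw [e])
  have hv'u : v' ≠ u := fun e => hcvu (by rw [hcl, e])
  set S1 : Set (Vt P) := {y : Vt P | (∃ g i j, y = bk g i j) ∧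
    (img F P.ρ h).underlying.Adj (cl v) (cl y) ∧ y ∉ S} with hS1
  set S2 : Set (Vt P) := {q | (img F P.ρ h).underlying.Adj (cl u) (cl q) ∧
    (∃ g i j, q = bk g i j) ∧ q ∉ nb (gph F P h) u} with hS2
  set Bad : Set (Vt P) := ({v, v', u} : Set (Vt P)) ∪ (S1 ∪ S2) with hBad
  set η : X → Vt P := fun y => if y = y1 then v else u with hη
  have e1 : η y1 = v := by simp [hη]
  have e2 : η y2 = u := by simp [hη, hne.symm]
  have hcount' : (Bad.ncard : ℝ) ≤ c * Nat.card (Vt P) := by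
    have h6 := Set.ncard_union_le ({v, v', u} : Set (Vt P)) (S1 ∪ S2)
    rw [← hBad] at h6
    have h7 := Set.ncard_union_le S1 S2
    have h8 : ({v, v', u} : Set (Vt P)).ncard ≤ 3 := by
      refine (Set.ncard_insert_le _ _).trans ?_
      have := Set.ncard_insert_le v' ({u} : Set (Vt P))
      rw [Set.ncard_singleton] at this
      omega
    have h9 := hmis u
    have h10 : (Bad.ncard : ℝ) ≤ 3 + S1.ncard + S2.ncard := by
      have : Bad.ncard ≤ 3 + S1.ncard + S2.ncard := by omega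
      exact_mod_cast this
    linarith
  have key := hA P h a B x (Ok_mono ok (le_max_left _ _))
    (upd (img F P.ρ h) cl (gph F P h) v S) (fun φ => E1 v v' φ ∧ Uses F v u φ) {y1, y2} η Bad
    (upd_over _ _ _ _ _) ?_ ?_ hcount' ?_ ?_ ?_ ?_ ?_
  · rw [Finset.card_pair hne] at key
    refine le_trans ?_ key
    have : 0 ≤ err X (Vt P) 2 := by unfold err; positivity
    nlinarith
  · intro y hy'
    rcases Finset.mem_insert.1 hy' with rfl | hy'
    · rw [e1, hy1]
    · rw [Finset.mem_singleton.1 hy', e2, hy2]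
  · intro y hy' z hz' he
    simp only [Finset.coe_insert, Finset.coe_singleton, Set.mem_insert_iff,
      Set.mem_singleton_iff] at hy' hz'
    rcases hy' with rfl | rfl <;> rcases hz' with rfl | rfl
    · rfl
    · rw [e1, e2] at he; exact absurd he hvu
    · rw [e1, e2] at he; exact absurd he.symm hvu
    · rfl
  · intro y hy'
    rcases Finset.mem_insert.1 hy' with rfl | hy'
    · rw [e1]; exact .inl (.inl rfl)
    · rw [Finset.mem_singleton.1 hy', e2]; exact .inl (.inr (.inr rfl))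
  · -- arcs inside
    have h6 : (upd (img F P.ρ h) cl (gph F P h) v S).underlying.Adj v u :=
      upd_adj (gph_over h) hadj (.inr (.inl ⟨rfl, huS⟩))
    intro p q hpq hp hq
    simp only [Finset.mem_insert, Finset.mem_singleton] at hp hq
    rcases hp with rfl | rfl <;> rcases hq with rfl | rfl
    · exact absurd hpq (SimpleGraph.irrefl _)
    · rw [e1, e2]; exact h6
    · rw [e1, e2]; exact h6.symm
    · exact absurd hpq (SimpleGraph.irrefl _)
  · intro p hp q hq hpq hqB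
    have hqv : q ≠ v := fun e => hqB (.inl (.inl e))
    simp only [Finset.mem_insert, Finset.mem_singleton] at hp
    rcases hp with rfl | rfl
    · rw [e1] at hpq ⊢
      refine upd_adj (gph_over h) hpq (.inr (.inl ⟨rfl, ?_⟩))
      by_contra h6
      exact hqB (.inr (.inl ⟨hq, hpq, h6⟩))
    · rw [e2] at hpq ⊢
      refine upd_adj (gph_over h) hpq (.inl ⟨hvu.symm, hqv, ?_⟩)
      by_contra h6
      exact hqB (.inr (.inr ⟨hpq, hq, h6⟩))
  · intro q q' hq hq' hpq hqB hqB'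
    exact upd_adj (gph_over h) hpq (.inl ⟨fun e => hqB (.inl (.inl e)),
      fun e => hqB' (.inl (.inl e)), bulk_adj h hq hq' hpq⟩)
  · intro φ h6 h7
    have f1 : φ y1 = v := by rw [h6 y1 (by simp), e1]
    have f2 : φ y2 = u := by rw [h6 y2 (by simp), e2]
    refine ⟨⟨⟨y1, f1⟩, ?_⟩, ⟨y1, y2, hy, f1, f2⟩⟩
    rintro ⟨p, hp⟩
    by_cases hpY : p ∈ ({y1, y2} : Finset X)
    · simp only [Finset.mem_insert, Finset.mem_singleton] at hpY
      rcases hpY with rfl | rfl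
      · exact hvv (f1.symm.trans hp)
      · exact hv'u (hp.symm.trans f2)
    · exact h7 p hpY (by rw [hp]; exact .inl (.inr (.inl rfl)))

theorem lb2 (hE : StEmb) (hS : StSize) : StLB2 := by
  classical
  intro X _ F hF h3
  obtain ⟨c, hc, A, hA⟩ := core2 hE hS X F hF h3
  obtain ⟨A', hA'⟩ := small hS X F hF h3 (c / 3) (by positivity)
  refine ⟨c / 3, by positivity, max A A', ?_⟩
  intro P h a B x ok y1 y2 y3 v v' z z' u S T hy12 hy23 hy13 hv hz hu hvv hclv hzz hclz hvu hv'u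
    hzS huS hvT huT hcount
  obtain ⟨hfin, h5, hmis⟩ := hA' P h a B x (Ok_mono ok (le_max_right _ _))
  have n12 : y1 ≠ y2 := hy12.ne
  have n23 : y2 ≠ y3 := hy23.ne
  have hadj12 : (img F P.ρ h).underlying.Adj (cl v) (cl z) := by rw [hv, hz]; exact img_adj h hy12
  have hadj23 : (img F P.ρ h).underlying.Adj (cl z) (cl u) := by rw [hz, hu]; exact img_adj h hy23
  have cvz : cl v ≠ cl z := hadj12.ne
  have czu : cl z ≠ cl u := hadj23.ne
  have vz : v ≠ z := fun e => cvz (by rw [e])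
  have zu : z ≠ u := fun e => czu (by rw [e])
  have v'z : v' ≠ z := fun e => cvz (by rw [hclv, e])
  have z'v : z' ≠ v := fun e => cvz (by rw [hclz, e])
  have z'u : z' ≠ u := fun e => czu (by rw [hclz, e])
  set S1 : Set (Vt P) := {y : Vt P | (∃ g i j, y = bk g i j) ∧
    (((img F P.ρ h).underlying.Adj (cl v) (cl y) ∧ y ∉ S) ∨
      ((img F P.ρ h).underlying.Adj (cl z) (cl y) ∧ y ∉ T))} with hS1
  set S2 : Set (Vt P) := {q | (img F P.ρ h).underlying.Adj (cl u) (cl q) ∧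
    (∃ g i j, q = bk g i j) ∧ q ∉ nb (gph F P h) u} with hS2
  set Bad : Set (Vt P) := ({v, v', z, z', u} : Set (Vt P)) ∪ (S1 ∪ S2) with hBad
  set η : X → Vt P := fun y => if y = y1 then v else if y = y2 then z else u with hη
  have e1 : η y1 = v := by simp [hη]
  have e2 : η y2 = z := by simp [hη, n12.symm]
  have e3 : η y3 = u := by simp [hη, hy13.symm, n23.symm]
  have hcount' : (Bad.ncard : ℝ) ≤ c * Nat.card (Vt P) := by
    have h6 := Set.ncard_union_le ({v, v', z, z', u} : Set (Vt P)) (S1 ∪ S2)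
    rw [← hBad] at h6
    have h7 := Set.ncard_union_le S1 S2
    have h8 : ({v, v', z, z', u} : Set (Vt P)).ncard ≤ 5 := by
      have i1 := Set.ncard_insert_le v ({v', z, z', u} : Set (Vt P))
      have i2 := Set.ncard_insert_le v' ({z, z', u} : Set (Vt P))
      have i3 := Set.ncard_insert_le z ({z', u} : Set (Vt P))
      have i4 := Set.ncard_insert_le z' ({u} : Set (Vt P))
      rw [Set.ncard_singleton] at i4
      omega
    have h9 := hmis u
    have h10 : (Bad.ncard : ℝ) ≤ 5 + S1.ncard + S2.ncard := by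
      have : Bad.ncard ≤ 5 + S1.ncard + S2.ncard := by omega
      exact_mod_cast this
    linarith
  set G1 := upd (img F P.ρ h) cl (gph F P h) v S with hG1
  have ho1 : Over (img F P.ρ h) cl G1 := upd_over _ _ _ _ _
  have hcard : ({y1, y2, y3} : Finset X).card = 3 := by
    rw [Finset.card_insert_of_notMem (by simp [n12, hy13]), Finset.card_pair n23]
  have key := hA P h a B x (Ok_mono ok (le_max_left _ _))
    (upd (img F P.ρ h) cl G1 z T)
    (fun φ => (E1 v v' φ ∧ z' ∉ Set.range φ ∧ Uses F v z φ) ∧ Uses F z u φ) {y1, y2, y3} η Bad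
    (upd_over _ _ _ _ _) ?_ ?_ hcount' ?_ ?_ ?_ ?_ ?_
  · rw [hcard] at key
    refine le_trans ?_ key
    have : 0 ≤ err X (Vt P) 3 := by unfold err; positivity
    nlinarith
  · intro y hy'
    simp only [Finset.mem_insert, Finset.mem_singleton] at hy'
    rcases hy' with rfl | rfl | rfl
    · rw [e1, hv]
    · rw [e2, hz]
    · rw [e3, hu]
  · intro y hy' w hw' he
    simp only [Finset.coe_insert, Finset.coe_singleton, Set.mem_insert_iff,
      Set.mem_singleton_iff] at hy' hw'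
    rcases hy' with rfl | rfl | rfl <;> rcases hw' with rfl | rfl | rfl <;>
      simp only [e1, e2, e3] at he
    · rfl
    · exact absurd he vz
    · exact absurd he hvu
    · exact absurd he.symm vz
    · rfl
    · exact absurd he zu
    · exact absurd he.symm hvu
    · exact absurd he.symm zu
    · rfl
  · intro y hy'
    simp only [Finset.mem_insert, Finset.mem_singleton] at hy'
    rcases hy' with rfl | rfl | rfl
    · rw [e1]; exact .inl (by simp)
    · rw [e2]; exact .inl (by simp)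
    · rw [e3]; exact .inl (by simp)
  · -- arcs inside
    have a12 : (upd (img F P.ρ h) cl G1 z T).underlying.Adj v z :=
      upd_adj ho1 hadj12 (.inr (.inr ⟨rfl, hvT⟩))
    have a23 : (upd (img F P.ρ h) cl G1 z T).underlying.Adj z u :=
      upd_adj ho1 hadj23 (.inr (.inl ⟨rfl, huT⟩))
    have a13 : F.underlying.Adj y1 y3 → (upd (img F P.ρ h) cl G1 z T).underlying.Adj v u := by
      intro h6
      have h7 : (img F P.ρ h).underlying.Adj (cl v) (cl u) := by
        rw [hv, hu]; exact img_adj h h6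
      exact upd_adj ho1 h7 (.inl ⟨vz, zu.symm,
        upd_adj (gph_over h) h7 (.inr (.inl ⟨rfl, huS h6⟩))⟩)
    intro p q hpq hp hq
    simp only [Finset.mem_insert, Finset.mem_singleton] at hp hq
    rcases hp with rfl | rfl | rfl <;> rcases hq with rfl | rfl | rfl <;>
      simp only [e1, e2, e3]
    · exact absurd hpq (SimpleGraph.irrefl _)
    · exact a12
    · exact a13 hpq
    · exact a12.symm
    · exact absurd hpq (SimpleGraph.irrefl _)
    · exact a23
    · exact (a13 hpq.symm).symm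
    · exact a23.symm
    · exact absurd hpq (SimpleGraph.irrefl _)
  · intro p hp q hq hpq hqB
    have qv : q ≠ v := fun e => hqB (.inl (by simp [e]))
    have qz : q ≠ z := fun e => hqB (.inl (by simp [e]))
    simp only [Finset.mem_insert, Finset.mem_singleton] at hp
    rcases hp with rfl | rfl | rfl
    · rw [e1] at hpq ⊢
      refine upd_adj ho1 hpq (.inl ⟨vz, qz, upd_adj (gph_over h) hpq (.inr (.inl ⟨rfl, ?_⟩))⟩)
      by_contra h6
      exact hqB (.inr (.inl ⟨hq, .inl ⟨hpq, h6⟩⟩))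
    · rw [e2] at hpq ⊢
      refine upd_adj ho1 hpq (.inr (.inl ⟨rfl, ?_⟩))
      by_contra h6
      exact hqB (.inr (.inl ⟨hq, .inr ⟨hpq, h6⟩⟩))
    · rw [e3] at hpq ⊢
      refine upd_adj ho1 hpq (.inl ⟨zu.symm, qz, upd_adj (gph_over h) hpq
        (.inl ⟨hvu.symm, qv, ?_⟩)⟩)
      by_contra h6
      exact hqB (.inr (.inr ⟨hpq, hq, h6⟩))
  · intro q q' hq hq' hpq hqB hqB'
    exact upd_adj ho1 hpq (.inl ⟨fun e => hqB (.inl (by simp [e])),
      fun e => hqB' (.inl (by simp [e])), upd_adj (gph_over h) hpq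
      (.inl ⟨fun e => hqB (.inl (by simp [e])), fun e => hqB' (.inl (by simp [e])),
        bulk_adj h hq hq' hpq⟩)⟩)
  · intro φ h6 h7
    have f1 : φ y1 = v := by rw [h6 y1 (by simp), e1]
    have f2 : φ y2 = z := by rw [h6 y2 (by simp), e2]
    have f3 : φ y3 = u := by rw [h6 y3 (by simp), e3]
    refine ⟨⟨⟨⟨y1, f1⟩, ?_⟩, ?_, ⟨y1, y2, hy12, f1, f2⟩⟩, ⟨y2, y3, hy23, f2, f3⟩⟩
    · rintro ⟨p, hp⟩
      by_cases hpY : p ∈ ({y1, y2, y3} : Finset X)
      · simp only [Finset.mem_insert, Finset.mem_singleton] at hpY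
        rcases hpY with rfl | rfl | rfl
        · exact hvv (f1.symm.trans hp)
        · exact v'z (hp.symm.trans f2)
        · exact hv'u (hp.symm.trans f3)
      · exact h7 p hpY (by rw [hp]; exact .inl (by simp))
    · rintro ⟨p, hp⟩
      by_cases hpY : p ∈ ({y1, y2, y3} : Finset X)
      · simp only [Finset.mem_insert, Finset.mem_singleton] at hpY
        rcases hpY with rfl | rfl | rfl
        · exact z'v (hp.symm.trans f1)
        · exact hzz (f2.symm.trans hp)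
        · exact z'u (hp.symm.trans f3)
      · exact h7 p hpY (by rw [hp]; exact .inl (by simp))

end Pool.Agent.K7.H31.FI
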